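import Pool.Agent.Run7.h204.WprMain

/-!
# MP_e57dcf_an: frames of `2n-2` vectors doing weak phase retrieval are not dense

If `u` is orthogonal to the first `n-1` vectors and `v` to the last `n-1` vectors then weak phase
retrieval forces `|u_k| = c |v_k|` for all `k`; for the signed maximal minors `u`, `v` this is a
closed condition that fails at `e_2, …, e_n, e_1, e_3, …, e_n`.
-/

namespace Pool.Agent.Results.MP_e57dcf_an.NotDense

open Run7.h204.Wpr

/-- **Answer to Q1.** For every `n ≥ 2` the frames of `2n-2` vectors of `ℝⁿ` that do weak phase
retrieval are not dense in the frames of `2n-2` vectors. -/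
theorem result (n : ℕ) (hn : 2 ≤ n) : ¬ (frames n (2 * n - 2) ⊆ closure (W n)) :=
  not_dense n hn

end Pool.Agent.Results.MP_e57dcf_an.NotDense
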